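import Pool.Agent.TH977.PW.Hered

set_option autoImplicit false

/-!
# Neighbourhoods of almost all elements of an arbitrary set, finite unions of systems of polynomials

Adapted from `TH977.PW.hereditary`: every element of the set (in the window) satisfies the rough condition of ONE of finitely
many systems with the same number of polynomials, the system may depend on the element.
-/

namespace Pool.Agent.Q45.RP

open Polynomial Finset Filter
open Pool.Agent.W123.RP Pool.Agent.H373R2.T7 Pool.Agent.W123.RU Pool.Agent.W123.RU.Poly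
open Pool.Agent.W123.GS Pool.Agent.W123.PP Pool.Agent.TH464.PW Pool.Agent.TH977.PW

variable {ι J : Type} [Fintype ι] [Fintype J]

/-- the rough condition of one of the systems -/
def RgU (f : J → ι → ℤ[X]) (r X Y n : ℕ) : Prop := ∃ j, Rgh (f j) r X Y n

open Classical in
lemma co_union (f : J → ι → ℤ[X]) (r X Y : ℕ) (a b : ℕ) :
    co (RgU f r X Y) a b ≤ ∑ j, co (Rgh (f j) r X Y) a b := by
  unfold co
  refine le_trans (card_le_card ?_) card_biUnion_le
  intro n hn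
  rw [mem_filter] at hn
  rw [mem_biUnion]
  obtain ⟨j, hj⟩ := hn.2
  exact ⟨j, mem_univ _, mem_filter.2 ⟨hn.1, hj⟩⟩

omit [Fintype ι] in
lemma rgh_of_rough_one (f : ι → ℤ[X]) (r X Y n : ℕ) (hr : 1 ≤ r) (hX : 4 ≤ X) (hY : 2 * Y ≤ X)
    (hm : Rough f r (n + (X - Y))) : Rgh f (2 * r) X Y n := by
  intro p hp hq
  obtain ⟨i, hi⟩ := hq
  have h1 := hm i p (mem_pz.1 hp).2 hi
  have h2 := mem_pz' (by positivity) hp
  have hXr : (4 : ℝ) ≤ X := by exact_mod_cast hX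
  have hX0 : (0 : ℝ) < X := by linarith
  have hr0 : (0 : ℝ) < r := by exact_mod_cast (by omega : 0 < r)
  have hm : (X : ℝ) ≤ 2 * ((n + (X - Y) : ℕ) : ℝ) := by
    have : X ≤ 2 * (n + (X - Y)) := by omega
    exact_mod_cast this
  have h3 : (X : ℝ) ^ (1 / ((2 * r : ℕ) : ℝ)) ≤ ((n + (X - Y) : ℕ) : ℝ) ^ (1 / (r : ℝ)) := by
    calc (X : ℝ) ^ (1 / ((2 * r : ℕ) : ℝ)) = ((X : ℝ) ^ (1 / 2 : ℝ)) ^ (1 / (r : ℝ)) := by
          rw [← Real.rpow_mul hX0.le]
          congr 1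
          push_cast
          field_simp
      _ ≤ _ := by
          apply Real.rpow_le_rpow (by positivity) _ (by positivity)
          rw [← Real.sqrt_eq_rpow]
          have h4 : √(X : ℝ) ≤ X / 2 := by
            rw [Real.sqrt_le_left (by linarith)]
            nlinarith
          linarith
  linarith

open Classical in
/-- the two upper bounds for a finite union of systems -/
theorem upper_union [Nonempty ι] (f : J → ι → ℤ[X]) (hf : ∀ j, Sys (f j)) (θ : ℝ) (hθ : 0 < θ) (hθ1 : θ ≤ 1) :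
    ∃ K1 : ℕ, 2 ≤ K1 ∧ ∀ r : ℕ, K1 ≤ r → ∃ (C1 C2 : ℝ), 0 < C1 ∧ 0 < C2 ∧ ∀ B0 : ℝ, 0 < B0 →
      ∀ᶠ X : ℕ in atTop, ∀ Y : ℕ, (X : ℝ) ^ θ ≤ Y → Y ≤ X →
        2 ≤ Real.log X ^ (Fintype.card ι) ∧
        B0 * (Real.log X ^ (Fintype.card ι)) ^ 2 ≤ Y ∧
        (co (RgU f r X Y) 0 (4 * Y) : ℝ) ≤ C1 * Y / Real.log X ^ (Fintype.card ι) ∧
        ∑ n ∈ Finset.Ico Y (2 * Y + 1),
          ((co (RgU f r X Y) n (n + ⌊Real.log X ^ (Fintype.card ι)⌋₊) : ℝ)) ^ 2 ≤ C2 * Y := by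
  choose K hK hK2 using fun j => upper_input (f j) (hf j) θ hθ hθ1
  refine ⟨2 + ∑ j, K j, by omega, fun r hr => ?_⟩
  have hle : ∀ j, K j ≤ r := fun j => le_trans (by
    have := single_le_sum (f := K) (fun i _ => Nat.zero_le _) (mem_univ j)
    omega) hr
  choose C1 C2 hC1 hC2 h using fun j => hK2 j r (hle j)
  have s1 : 0 ≤ ∑ j, C1 j := sum_nonneg fun j _ => (hC1 j).le
  have s2 : 0 ≤ ∑ j, C2 j := sum_nonneg fun j _ => (hC2 j).le
  refine ⟨1 + ∑ j, C1 j, 1 + Fintype.card J * ∑ j, C2 j, by positivity, by positivity, fun B0 hB0 => ?_⟩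
  have hall : ∀ᶠ X : ℕ in atTop, ∀ j, ∀ Y : ℕ, (X : ℝ) ^ θ ≤ Y → Y ≤ X →
        2 ≤ Real.log X ^ (Fintype.card ι) ∧
        B0 * (Real.log X ^ (Fintype.card ι)) ^ 2 ≤ Y ∧
        (co (Rgh (f j) r X Y) 0 (4 * Y) : ℝ) ≤ C1 j * Y / Real.log X ^ (Fintype.card ι) ∧
        ∑ n ∈ Finset.Ico Y (2 * Y + 1),
          ((co (Rgh (f j) r X Y) n (n + ⌊Real.log X ^ (Fintype.card ι)⌋₊) : ℝ)) ^ 2 ≤ C2 j * Y :=
    eventually_all.2 fun j => h j B0 hB0
  have hk1 : 1 ≤ Fintype.card ι := Fintype.card_pos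
  have hXr : Tendsto (fun X : ℕ => (X : ℝ)) atTop atTop := tendsto_natCast_atTop_atTop
  have hlogX : Tendsto (fun X : ℕ => Real.log (X : ℝ)) atTop atTop := Real.tendsto_log_atTop.comp hXr
  filter_upwards [hall, hlogX.eventually_ge_atTop 2, logpow_rpow (2 * Fintype.card ι) B0 θ hB0 hθ] with X hX hX2 hX3
  intro Y hXY hYX
  have hL2 : (2 : ℝ) ≤ Real.log X ^ (Fintype.card ι) := by
    calc (2 : ℝ) ≤ Real.log X ^ 1 := by rwa [pow_one]
      _ ≤ _ := pow_le_pow_right₀ (by linarith) hk1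
  have hL0 : 0 < Real.log X ^ (Fintype.card ι) := by linarith
  refine ⟨hL2, ?_, ?_, ?_⟩
  · rw [← pow_mul, mul_comm (Fintype.card ι) 2]
    linarith
  · have h1 : ((co (RgU f r X Y) 0 (4 * Y) : ℕ) : ℝ) ≤
        ∑ j, (co (Rgh (f j) r X Y) 0 (4 * Y) : ℝ) := by
      exact_mod_cast co_union f r X Y 0 (4 * Y)
    refine h1.trans ((sum_le_sum fun j _ => (hX j Y hXY hYX).2.2.1).trans ?_)
    rw [← Finset.sum_div, ← Finset.sum_mul]
    gcongr
    linarith
  · have h1 : ∀ n ∈ Finset.Ico Y (2 * Y + 1),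
        ((co (RgU f r X Y) n (n + ⌊Real.log X ^ (Fintype.card ι)⌋₊) : ℝ)) ^ 2 ≤
        Fintype.card J * ∑ j, ((co (Rgh (f j) r X Y) n (n + ⌊Real.log X ^ (Fintype.card ι)⌋₊) : ℝ)) ^ 2 := by
      intro n _
      have h2 : ((co (RgU f r X Y) n (n + ⌊Real.log X ^ (Fintype.card ι)⌋₊) : ℕ) : ℝ) ≤
          ∑ j, (co (Rgh (f j) r X Y) n (n + ⌊Real.log X ^ (Fintype.card ι)⌋₊) : ℝ) := by
        exact_mod_cast co_union f r X Y n _
      calc _ ≤ (∑ j, (co (Rgh (f j) r X Y) n (n + ⌊Real.log X ^ (Fintype.card ι)⌋₊) : ℝ)) ^ 2 :=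
            pow_le_pow_left₀ (Nat.cast_nonneg _) h2 2
        _ ≤ _ := by
            have := sq_sum_le_card_mul_sum_sq (s := (univ : Finset J))
              (f := fun j => (co (Rgh (f j) r X Y) n (n + ⌊Real.log X ^ (Fintype.card ι)⌋₊) : ℝ))
            simpa using this
    refine (sum_le_sum h1).trans ?_
    rw [← Finset.mul_sum, Finset.sum_comm]
    calc (Fintype.card J : ℝ) * ∑ j, ∑ n ∈ Finset.Ico Y (2 * Y + 1),
          ((co (Rgh (f j) r X Y) n (n + ⌊Real.log X ^ (Fintype.card ι)⌋₊) : ℝ)) ^ 2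
        ≤ Fintype.card J * ∑ j, C2 j * Y := by
          gcongr with j _
          exact (hX j Y hXY hYX).2.2.2
      _ = (Fintype.card J * ∑ j, C2 j) * Y := by rw [← Finset.sum_mul]; ring
      _ ≤ (1 + Fintype.card J * ∑ j, C2 j) * Y := by
          gcongr
          linarith

open Classical in
theorem hered_union [Nonempty ι] (f : J → ι → ℤ[X]) (hf : ∀ j, Sys (f j)) (θ : ℝ) (hθ : 0 < θ) (hθ1 : θ ≤ 1) :
    ∃ r0 : ℕ, 2 ≤ r0 ∧ ∀ r : ℕ, r0 ≤ r →
    ∀ ε : ℝ, 0 < ε → ∃ c : ℝ, 0 < c ∧ ∀ δ : ℝ, 0 < δ → ∃ B : ℕ,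
      ∀ᶠ X : ℕ in atTop, ∀ Y : ℕ, (X : ℝ) ^ θ ≤ Y → 2 * Y ≤ X →
        ∀ A : Set ℕ, (∀ m ∈ A, X - Y < m → m ≤ X + 2 * Y → ∃ j, Rough (f j) r m) →
        (N (Irregular A (Fintype.card ι) c δ B X Y) X (X + Y) : ℝ) ≤
            ε * Y / Real.log X ^ (Fintype.card ι) := by
  obtain ⟨r0, hr02, hup⟩ := upper_union f hf θ hθ hθ1
  refine ⟨r0, hr02, ?_⟩
  intro r hr ε hε
  obtain ⟨C1, C2, hC1, hC2, hin⟩ := hup (2 * r) (by omega)
  obtain ⟨c1, Lam, hc1, hLam, hpts⟩ := points C1 C2 hC1 hC2 ε hε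
  obtain ⟨c0, hc0def⟩ : ∃ c0 : ℝ, c0 = min c1 1 := ⟨_, rfl⟩
  have hc0 : 0 < c0 := by rw [hc0def]; exact lt_min hc1 one_pos
  have hc0c1 : c0 ≤ c1 := by rw [hc0def]; exact min_le_left _ _
  have hc01 : c0 ≤ 1 := by rw [hc0def]; exact min_le_right _ _
  obtain ⟨c, hcdef⟩ : ∃ c : ℝ, c = min (1 / (3 * Lam)) (c0 / 4) := ⟨_, rfl⟩
  have hc : 0 < c := by rw [hcdef]; positivity
  have hc4 : c ≤ c0 / 4 := by rw [hcdef]; exact min_le_right _ _
  have hcL : c ≤ 1 / (3 * Lam) := by rw [hcdef]; exact min_le_left _ _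
  refine ⟨c, hc, ?_⟩
  intro δ hδ
  obtain ⟨K, B0, hB0, hpts⟩ := hpts (min δ (c0 / 4)) (by positivity)
  obtain ⟨s0, hs0⟩ : ∃ s0 : ℕ, 2 / c0 ≤ (2 : ℝ) ^ s0 := by
    obtain ⟨j, hj⟩ := pow_unbounded_of_one_lt (2 / c0) (one_lt_two : (1 : ℝ) < 2)
    exact ⟨j, hj.le⟩
  refine ⟨K + s0, ?_⟩
  filter_upwards [hin (B0 + 1) (by positivity), eventually_ge_atTop 4] with X hX hX4 Y hXY hYX A hA
  obtain ⟨h1, h2, h3, h4⟩ := hX Y hXY (by omega)
  obtain ⟨L, hL⟩ : ∃ L, L = Real.log X ^ (Fintype.card ι) := ⟨_, rfl⟩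
  rw [← hL] at h1 h2 h3 h4
  have hL0 : 0 < L := by linarith
  have hLL : 0 < L ^ 2 := by positivity
  have hB0L : 0 ≤ B0 * L ^ 2 := by positivity
  have hLY : L ≤ Y := by nlinarith
  have hBX' : B0 * L ^ 2 ≤ Y := by nlinarith
  set RG : ℕ → Prop := RgU f (2 * r) X Y with hRG
  have hPP : ∀ n, Sh A X Y n → RG n := by
    intro n hn
    obtain ⟨j, hj⟩ := hA _ hn.2.2 (by have := hn.1; omega) (by have := hn.2.1; omega)
    exact ⟨j, rgh_of_rough_one (f j) r X Y n (by omega) hX4 hYX hj⟩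
  have hbad := hpts (Sh A X Y) RG Y L h1 hBX' hPP h3 h4
  rw [← hL]
  refine le_trans ?_ hbad
  have hcoP : ∀ a b, co (Sh A X Y) a b ≤ co RG a b := by
    intro a b
    unfold co
    apply card_le_card
    intro n hn
    rw [mem_filter] at hn ⊢
    exact ⟨hn.1, hPP n hn.2⟩
  have hle : ((Finset.Ioc X (X + Y)).filter (fun m =>
        m ∈ Irregular A (Fintype.card ι) c δ (K + s0) X Y)).card ≤
      ((Finset.Ioc Y (2 * Y)).filter (fun p => Sh A X Y p ∧ ¬ (
        (∀ H : ℕ, 1 ≤ H → H ≤ Y →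
          c1 / L * H ≤ cl (Sh A X Y) p (p + H) ∧ c1 / L * H ≤ cl (Sh A X Y) (p + 1 - H) (p + 1)) ∧
        (∀ H : ℕ, ⌊L⌋₊ ≤ H → H ≤ Y →
          (co RG p (p + H) : ℝ) ≤ Lam / L * H ∧
            (co RG (p - H) p : ℝ) ≤ Lam / L * H) ∧
        ((range (Nat.log 2 Y + 1)).filter (fun j => L ≤ (2 : ℝ) ^ j ∧
          ¬ Good (Sh A X Y) 0 Lam (min δ (c0 / 4)) L p j)).card ≤ K))).card := by
    apply Finset.card_le_card_of_injOn (fun m => m - (X - Y))
    · intro m hm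
      rw [Finset.mem_coe, mem_filter, mem_Ioc] at hm
      obtain ⟨⟨hm1, hm2⟩, hm3, hm4⟩ := hm
      obtain ⟨n, rfl⟩ : ∃ n, m = n + (X - Y) := ⟨m - (X - Y), by omega⟩
      have e : n + (X - Y) - (X - Y) = n := by omega
      have hn1 : Y < n := by omega
      have hn2 : n ≤ 2 * Y := by omega
      rw [Finset.mem_coe]
      beta_reduce
      rw [e, mem_filter, mem_Ioc]
      refine ⟨⟨hn1, hn2⟩, ⟨by omega, by omega, hm3⟩, ?_⟩
      rintro ⟨W1, W2, W3⟩
      apply hm4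
      have hgood := local_good (Sh A X Y) n Y L c0 Lam c δ K s0 h1 hLY (by omega) hc0 hc01 hLam hc
        hc4 hcL hδ hs0 (by
          intro H hH1 hH2
          have h3 : c0 / L * H ≤ c1 / L * H := by gcongr
          exact ⟨h3.trans (W1 H hH1 hH2).1, h3.trans (W1 H hH1 hH2).2⟩) (by
          intro H hH1 hH2
          have a1 := hcoP n (n + H)
          have a2 := hcoP (n - H) n
          have a1' : (co (Sh A X Y) n (n + H) : ℝ) ≤ co RG n (n + H) := by
            exact_mod_cast a1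
          have a2' : (co (Sh A X Y) (n - H) n : ℝ) ≤ co RG (n - H) n := by
            exact_mod_cast a2
          exact ⟨a1'.trans (W2 H hH1 hH2).1, a2'.trans (W2 H hH1 hH2).2⟩) W3
      obtain ⟨G1, G2⟩ := hgood
      have hshift : ∀ s t : ℕ, s ≤ Y → t ≤ Y → N A (n + (X - Y) - s) (n + (X - Y) + t) =
          co (Sh A X Y) (n - s) (n + t) := by
        intro s t hs ht
        rw [co_Sh A X Y _ _ (by omega)]
        congr 1 <;> omega
      constructor
      · intro s t hs ht hst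
        rw [← hL] at hst ⊢
        rw [hshift s t hs ht]
        exact G1 s t hs ht hst
      · refine le_trans ?_ G2
        unfold badScales
        apply card_le_card
        intro j hj
        rw [mem_filter] at hj ⊢
        obtain ⟨hj1, hj2, hj3⟩ := hj
        rw [← hL] at hj2
        refine ⟨hj1, hj2, ?_⟩
        rintro ⟨lam, g1, g2, g3⟩
        apply hj3
        have hjY : 2 ^ j ≤ Y := by
          have h6 : j ≤ Nat.log 2 Y := by
            rw [mem_range] at hj1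
            omega
          have hY0 : Y ≠ 0 := by
            rintro rfl
            simp at hLY
            linarith
          exact (Nat.pow_le_pow_right (by norm_num) h6).trans (Nat.pow_log_le_self 2 hY0)
        refine ⟨lam, g1, g2, ?_⟩
        intro s t hs ht
        rw [← hL, hshift s t (hs.trans hjY) (ht.trans hjY)]
        exact g3 s t hs ht
    · intro a ha b hb hab
      rw [Finset.mem_coe, mem_filter, mem_Ioc] at ha hb
      simp only at hab
      omega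
  unfold N
  exact_mod_cast hle

end Pool.Agent.Q45.RP
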